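import Mathlib
import Pool.Agent.H570R2.SP.Result

/-!
The search-to-profile reduction for Kolmogorov complexity is impossible already for two given
strings and one string to be found (`k = 2`, `m = 1`).

Definitions (file `Pool/Agent/H570R2/SP/Defs.lean`):
* `OptimalDecompressor U`, `plainC U x`: optimal plain decompressors and plain complexity;
* `profile U enc zs`: the list of the complexities of all subtuples of the tuple `zs`
  (subtuples are listed in the fixed order of `List.sublists`, tuples are encoded by `enc`);
* `totalLen zs`: the total length `n` of the strings of `zs`;
* `successProb U enc A r c xs ys`: the probability, over `ρ` uniform in `{0,1}^(r n)`, that the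
  output `ys' = A (n, profile of xs ++ ys, xs, ρ)` has a profile of `xs ++ ys'` which is within
  `c * log n` of the profile of `xs ++ ys` in every coordinate.

The algorithm `A` is an arbitrary total computable function of `n`, the profile, the strings `xs`
and the random bits, and the number `r n` of random bits is an arbitrary computable function of
`n`. No bound on the running time is needed; probabilistic algorithms working in time polynomial
in `n` are a special case.

Idea of the proof. Let `s = 2^j`, and let `f₁, f₂` be bijections of `{0,1}^(2s)` found by an
exhaustive (computable) search. For `y, r₁, r₂` in `{0,1}^s` put `x₁ = f₁(y r₁)`, `x₂ = f₂(y r₂)`.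
Then `y` is the extractable common information of `x₁` and `x₂`, and every `z` whose profile is
close to that of `y` has `K(x₁, z) ≤ 2s + O(log s)`, `K(x₂, z) ≤ 2s + O(log s)` and
`K(z) ≥ s - O(log s)`. By counting, if the algorithm succeeds with probability at least `n^(-q)`
then for some block `y` and some profile `v` one string `z` of large complexity is output with
probability at least `n^(-O(1))` on the block of `y`. A second moment computation, for affine maps
over a finite field with `2^(2s)` elements, shows that there are `f₁, f₂` for which every such `z`
is output with probability `n^(-O(1))` on random inputs from `{0,1}^(2s) × {0,1}^(2s)` too; there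
are only `n^(O(1))` such strings `z`, they can be enumerated, and their complexity is `O(log n)`.
-/

namespace Pool.Agent.Results.MP_eed1a0_lc.NoSearchToProfile

open Pool.Agent.H570R2.SP

/-- **No search-to-profile reduction for `k = 2`, `m = 1`.** The first two clauses say that the
optimal decompressors and the encodings of tuples which are quantified over exist. For each of
them, for every randomised algorithm `A` (a total computable function, with a computable number
`r n` of random bits), all constants `c`, `δ > 0`, and even all `q` and `n₀`, there are two given
strings `xs` and one further string `ys`, of total length `n ≥ n₀`, such that `A` succeeds with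
probability smaller than `δ / n ^ q` (for `q = 0`: smaller than `δ`). -/
theorem result :
    (∃ U : List Bool →. List Bool, OptimalDecompressor U) ∧
    (∃ enc : List (List Bool) → List Bool, Computable enc ∧ Function.Injective enc) ∧
    ∀ U : List Bool →. List Bool, OptimalDecompressor U →
    ∀ enc : List (List Bool) → List Bool, Computable enc → Function.Injective enc →
    ∀ (A : ℕ × List ℕ × List (List Bool) × List Bool → List (List Bool)) (r : ℕ → ℕ),
      Computable A → Computable r → ∀ (c q n₀ : ℕ) (δ : ℝ), 0 < δ →
        ∃ xs ys : List (List Bool), xs.length = 2 ∧ ys.length = 1 ∧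
          n₀ ≤ totalLen (xs ++ ys) ∧ 1 ≤ totalLen (xs ++ ys) ∧
          successProb U enc A r c xs ys < δ / (totalLen (xs ++ ys) : ℝ) ^ q := by
  refine ⟨exists_optimal, exists_enc, ?_⟩
  intro U hU enc henc hinj A r hA hr c q n₀ δ hδ
  obtain ⟨n₁, hn₁⟩ := exists_nat_gt (1 / δ)
  obtain ⟨xs, ys, h1, h2, h3, h4, h5⟩ := prob hU henc hinj hA hr c (q + 1) (max n₀ n₁)
  refine ⟨xs, ys, h1, h2, le_trans (le_max_left _ _) h3, h4, h5.trans_le ?_⟩
  have h7 : (n₁ : ℝ) ≤ (totalLen (xs ++ ys) : ℝ) := by
    exact_mod_cast le_trans (le_max_right _ _) h3
  have h8 : (0 : ℝ) < (totalLen (xs ++ ys) : ℝ) := by exact_mod_cast h4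
  rw [div_le_div_iff₀ (by positivity) (by positivity), pow_succ]
  have h9 : 1 ≤ δ * (totalLen (xs ++ ys) : ℝ) := by
    rw [div_lt_iff₀ hδ] at hn₁
    nlinarith
  have h10 : (0 : ℝ) < (totalLen (xs ++ ys) : ℝ) ^ q := by positivity
  nlinarith

end Pool.Agent.Results.MP_eed1a0_lc.NoSearchToProfile
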